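import Mathlib
import Pool.Agent.H594Z.CSPMat

set_option autoImplicit false

namespace Pool.Agent.Results.MP_eafd9d_co.WeakNotStrong

/-- The completely positive semidefinite cone. -/
def CSplus {ι : Type} (M : Matrix ι ι ℝ) : Prop :=
  ∃ d : ℕ, 1 ≤ d ∧ ∃ ρ : ι → Matrix (Fin d) (Fin d) ℝ,
    (∀ i, (ρ i).PosSemidef) ∧ ∀ i j, M i j = (ρ i * ρ j).trace

/-- Condition (C1). -/
def C1 {n m : ℕ} (H : Matrix (Fin n × Fin m) (Fin n × Fin m) ℝ) : Prop :=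
  ∀ x x', ∑ y, ∑ y', H (x, y) (x', y') = 1

/-- Condition (C2). -/
def C2 {n m : ℕ} (X : SimpleGraph (Fin n)) (Y : SimpleGraph (Fin m))
    (H : Matrix (Fin n × Fin m) (Fin n × Fin m) ℝ) : Prop :=
  ∀ x x' y y', X.Adj x x' → ¬ Y.Adj y y' → H (x, y) (x', y') = 0

/-- Condition (C3). -/
def C3 {n m : ℕ} (H : Matrix (Fin n × Fin m) (Fin n × Fin m) ℝ) : Prop :=
  ∀ x y y', y ≠ y' → H (x, y) (x, y') = 0

/-- Weak `CS₊`-homomorphism. -/
def WeakHom {n m : ℕ} (X : SimpleGraph (Fin n)) (Y : SimpleGraph (Fin m)) : Prop :=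
  ∃ H, CSplus H ∧ C1 H ∧ C2 X Y H

/-- Strong `CS₊`-homomorphism. -/
def StrongHom {n m : ℕ} (X : SimpleGraph (Fin n)) (Y : SimpleGraph (Fin m)) : Prop :=
  ∃ H, CSplus H ∧ C1 H ∧ C2 X Y H ∧ C3 H

open Pool.Agent.H594Z.CSP in
/-- There is a graph `Y` on 30 vertices such that `K₇` has a weak but no strong
`CS₊`-homomorphism to `Y`. -/
theorem result : ∃ Y : SimpleGraph (Fin 30),
    WeakHom (⊤ : SimpleGraph (Fin 7)) Y ∧ ¬ StrongHom (⊤ : SimpleGraph (Fin 7)) Y := by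
  refine ⟨⟨adj, ⟨fun _ _ h => adj_symm h⟩, ⟨fun _ h => h.1 rfl⟩⟩, ?_, ?_⟩
  · refine ⟨fun i j => (rho i * rho j).trace, ⟨4, by norm_num, rho, rho_psd, fun _ _ => rfl⟩,
      rho_c1, fun x x' y y' hx h => rho_c2 x x' y y' hx h⟩
  · rintro ⟨H, ⟨d, -, ρ, hρ, hH⟩, c1, c2, c3⟩
    refine no_strong ρ hρ (fun x x' => ?_) (fun x x' y y' hx h => ?_) (fun x y y' h => ?_)
    · simpa only [hH] using c1 x x'
    · rw [← hH]; exact c2 x x' y y' hx h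
    · rw [← hH]; exact c3 x y y' h

end Pool.Agent.Results.MP_eafd9d_co.WeakNotStrong
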